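import Pool.Agent.ZPK.StmtsD
import Pool.Agent.Helper51_ZP3.Near

/-!
# Squad ZPK, row EMB: a good embedding
-/

set_option autoImplicit false

namespace Pool.Agent.ZPK.H26

open Polynomial Pool.Agent.ZPT Pool.Agent.ZP3 Pool.Agent.ZP3.H51

noncomputable section

section
variable {K : Type} [NormedField K] [IsUltrametricDist K]

theorem emb_lt {x y : K} (hx : ‖x‖ < 1) (hy : ‖y‖ < 1) : ‖x + y‖ < 1 :=
  lt_of_le_of_lt (IsUltrametricDist.norm_add_le_max _ _) (max_lt hx hy)

/-- two products of linear factors with near roots have near coefficients -/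
theorem emb_near (m : K → ℤ) (R : Multiset K) :
    (∀ r ∈ R, ‖r‖ ≤ 1 ∧ ‖r - (m r : K)‖ < 1) →
      ∀ n, ‖(R.map (fun r => X - C ((m r : ℤ) : K))).prod.coeff n‖ ≤ 1 ∧
        ‖(R.map (fun r => X - C r)).prod.coeff n -
          (R.map (fun r => X - C ((m r : ℤ) : K))).prod.coeff n‖ < 1 := by
  induction R using Multiset.induction_on with
  | empty =>
    intro _ n
    simp only [Multiset.map_zero, Multiset.prod_zero, sub_self, norm_zero, zero_lt_one, and_true]
    rw [coeff_one]
    split_ifs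
    · rw [norm_one]
    · rw [norm_zero]; exact zero_le_one
  | cons r R ih =>
    intro h
    have h0 := h r (Multiset.mem_cons_self r R)
    have ih' := ih (fun x hx => h x (Multiset.mem_cons_of_mem hx))
    have hm : ‖((m r : ℤ) : K)‖ ≤ 1 := IsUltrametricDist.norm_intCast_le_one K _
    obtain ⟨P, hP⟩ : ∃ P : K[X], P = (R.map (fun r => X - C r)).prod := ⟨_, rfl⟩
    obtain ⟨Q, hQ⟩ : ∃ Q : K[X], Q = (R.map (fun r => X - C ((m r : ℤ) : K))).prod := ⟨_, rfl⟩
    rw [← hP, ← hQ] at ih'
    intro n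
    rw [Multiset.map_cons, Multiset.prod_cons, Multiset.map_cons, Multiset.prod_cons, ← hP, ← hQ]
    -- the coefficients of `(X - r) P`
    have key : ∀ (c : K) (S : K[X]), ((X - C c) * S).coeff n =
        (X * S).coeff n - c * S.coeff n := by
      intro c S
      rw [sub_mul, coeff_sub, coeff_C_mul]
    have hX1 : ‖(X * Q).coeff n‖ ≤ 1 := by
      rcases n with _ | n
      · rw [coeff_X_mul_zero, norm_zero]; exact zero_le_one
      · rw [coeff_X_mul]; exact (ih' n).1
    have hX2 : ‖(X * P).coeff n - (X * Q).coeff n‖ < 1 := by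
      rcases n with _ | n
      · rw [coeff_X_mul_zero, coeff_X_mul_zero, sub_self, norm_zero]; exact zero_lt_one
      · rw [coeff_X_mul, coeff_X_mul]; exact (ih' n).2
    rw [key, key]
    constructor
    · refine sub_le' hX1 ?_
      rw [norm_mul]
      exact mul_le_one₀ hm (norm_nonneg _) (ih' n).1
    · have e : (X * P).coeff n - r * P.coeff n - ((X * Q).coeff n - ((m r : ℤ) : K) * Q.coeff n) =
          ((X * P).coeff n - (X * Q).coeff n) +
            (-(r * (P.coeff n - Q.coeff n)) + -((r - ((m r : ℤ) : K)) * Q.coeff n)) := by ring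
      rw [e]
      refine emb_lt hX2 (emb_lt ?_ ?_)
      · rw [norm_neg, norm_mul]
        nlinarith [norm_nonneg r, norm_nonneg (P.coeff n - Q.coeff n), h0.1, (ih' n).2]
      · rw [norm_neg, norm_mul]
        nlinarith [norm_nonneg (r - ((m r : ℤ) : K)), norm_nonneg (Q.coeff n), h0.2, (ih' n).1]

/-- the roots of a monic integral polynomial are integral -/
theorem emb_root {f : ℤ[X]} (hf : f.Monic) {r : K} (hr : (f.map (Int.castRingHom K)).eval r = 0) :
    ‖r‖ ≤ 1 := by
  by_contra hcon
  push Not at hcon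
  have hr0 : 0 < ‖r‖ := lt_trans zero_lt_one hcon
  obtain ⟨g, hg⟩ : ∃ g : K[X], g = f.map (Int.castRingHom K) := ⟨_, rfl⟩
  have hgm : g.Monic := by rw [hg]; exact hf.map _
  have hgc : ∀ n, ‖g.coeff n‖ ≤ 1 := by
    intro n
    rw [hg, coeff_map]
    exact IsUltrametricDist.norm_intCast_le_one K _
  rw [← hg, eval_eq_sum_range, Finset.sum_range_succ] at hr
  have hlead : g.coeff g.natDegree = 1 := hgm
  rw [hlead, one_mul] at hr
  have h1 : ‖r ^ g.natDegree‖ = ‖∑ i ∈ Finset.range g.natDegree, g.coeff i * r ^ i‖ := by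
    have : r ^ g.natDegree = -∑ i ∈ Finset.range g.natDegree, g.coeff i * r ^ i := by
      linear_combination hr
    rw [this, norm_neg]
  rcases Nat.eq_zero_or_pos g.natDegree with hd | hd
  · rw [hd] at h1
    simp at h1
  · have h2 : ‖∑ i ∈ Finset.range g.natDegree, g.coeff i * r ^ i‖ ≤ ‖r‖ ^ (g.natDegree - 1) := by
      apply IsUltrametricDist.norm_sum_le_of_forall_le_of_nonneg (by positivity)
      intro i hi
      have hi' := Finset.mem_range.1 hi
      rw [norm_mul, norm_pow]
      have h3 : ‖r‖ ^ i ≤ ‖r‖ ^ (g.natDegree - 1) := pow_le_pow_right₀ hcon.le (by omega)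
      have h4 : 0 ≤ ‖r‖ ^ i := by positivity
      nlinarith [hgc i, norm_nonneg (g.coeff i)]
    rw [← h1, norm_pow] at h2
    have h5 : ‖r‖ ^ (g.natDegree - 1) < ‖r‖ ^ g.natDegree :=
      pow_lt_pow_right₀ hcon (by omega)
    linarith

end

theorem emb : EmbStmt := by
  intro p hp K _ _ _ _ hE β hβ hns
  have : Fact p.Prime := ⟨hp⟩
  obtain ⟨f, hf⟩ : ∃ f : ℤ[X], f = minpoly ℤ β := ⟨_, rfl⟩
  have hfm : f.Monic := by rw [hf]; exact minpoly.monic hβ
  obtain ⟨g, hg⟩ : ∃ g : K[X], g = f.map (Int.castRingHom K) := ⟨_, rfl⟩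
  have hgm : g.Monic := by rw [hg]; exact hfm.map _
  have hgs : g.Splits := IsAlgClosed.splits g
  have hgp : g = (g.roots.map (fun r => X - C r)).prod := by
    have := hgs.eq_prod_roots
    rw [hgm.leadingCoeff, C_1, one_mul] at this
    exact this
  have hroot : ∀ r ∈ g.roots, ‖r‖ ≤ 1 := by
    intro r hr
    have h1 := (mem_roots hgm.ne_zero).1 hr
    rw [hg] at h1
    exact emb_root hfm h1
  -- some root is not near an integer
  have hex : ∃ r ∈ g.roots, ∀ m : ℤ, ‖r - (m : K)‖ = 1 := by
    by_contra hcon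
    push Not at hcon
    apply hns
    rw [← hf]
    have hch : ∀ r : K, ∃ m : ℤ, r ∈ g.roots → ‖r - (m : K)‖ < 1 := by
      intro r
      by_cases hr : r ∈ g.roots
      · obtain ⟨m, hm⟩ := hcon r hr
        refine ⟨m, fun _ => ?_⟩
        have h1 : ‖r - (m : K)‖ ≤ 1 := sub_le' (hroot r hr)
          (IsUltrametricDist.norm_intCast_le_one K _)
        exact lt_of_le_of_ne h1 hm
      · exact ⟨0, fun h => absurd h hr⟩
    choose m hm using hch
    have hn := emb_near m g.roots (fun r hr => ⟨hroot r hr, hm r hr⟩)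
    rw [← hgp] at hn
    -- the integral polynomial
    obtain ⟨q, hq⟩ : ∃ q : ℤ[X], q = (g.roots.map (fun r => X - C (m r))).prod := ⟨_, rfl⟩
    have hqK : q.map (Int.castRingHom K) = (g.roots.map (fun r => X - C ((m r : ℤ) : K))).prod := by
      rw [hq, Polynomial.map_multiset_prod, Multiset.map_map]
      congr 1
      apply Multiset.map_congr rfl
      intro r _
      simp
    have hmod : f.map (Int.castRingHom (ZMod p)) = q.map (Int.castRingHom (ZMod p)) := by
      ext n
      rw [coeff_map, coeff_map]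
      have h1 := (hn n).2
      rw [← hqK, hg, coeff_map, coeff_map, ← map_sub] at h1
      have h2 : (p : ℤ) ∣ f.coeff n - q.coeff n := by
        rw [← padicNorm.int_lt_one_iff]
        have h3 := hE ((f.coeff n - q.coeff n : ℤ) : ℚ)
        rw [Rat.cast_intCast] at h3
        have h4 : ‖((f.coeff n - q.coeff n : ℤ) : K)‖ < 1 := h1
        rw [h3] at h4
        exact_mod_cast h4
      have h5 := (ZMod.intCast_zmod_eq_zero_iff_dvd (f.coeff n - q.coeff n) p).2 h2
      rw [Int.cast_sub, sub_eq_zero] at h5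
      exact h5
    rw [hmod, hq, Polynomial.map_multiset_prod, Multiset.map_map]
    apply Polynomial.Splits.multisetProd
    intro t ht
    obtain ⟨r, -, hr⟩ := Multiset.mem_map.1 ht
    rw [← hr, Function.comp_apply, Polynomial.map_sub, Polynomial.map_X, Polynomial.map_C]
    exact Polynomial.Splits.X_sub_C _
  obtain ⟨r, hr, hrm⟩ := hex
  have hr0 : aeval r (minpoly ℚ β) = 0 := by
    rw [minpoly.isIntegrallyClosed_eq_field_fractions' ℚ hβ, ← hf]
    have h1 := (mem_roots hgm.ne_zero).1 hr
    rw [hg] at h1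
    rw [aeval_map_algebraMap]
    rw [IsRoot.def, eval_map] at h1
    exact h1
  obtain ⟨φ, hφ⟩ := IntermediateField.exists_algHom_of_splits_of_aeval (F := ℚ) (E := Qb) (K := K)
    (fun x => ⟨((algebraicClosure.isAlgebraic ℚ ℂ).isAlgebraic x).isIntegral,
      IsAlgClosed.splits _⟩) hr0
  refine ⟨φ.toRingHom, fun m => ?_⟩
  have : φ.toRingHom β = r := hφ
  rw [this]
  exact hrm m

end

end Pool.Agent.ZPK.H26
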