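import Pool.Agent.ZPK.StmtsL
import Pool.Agent.Helper51_ZP3.Near

/-!
# Squad ZPK, row GTF: a pair in equal states and a radial pair near a finite base point
-/

set_option autoImplicit false

namespace Pool.Agent.ZPK.H26

open Polynomial Pool.Agent.ZPT Pool.Agent.ZP3 Pool.Agent.ZP3.H51

noncomputable section

/-- `X ^ p - X ≡ Π (X - a)` modulo `p` -/
theorem gtf_lift (p : ℕ) [Fact p.Prime] : ∃ Q : ℤ[X],
    (X ^ p - X : ℤ[X]) - ∏ a : ZMod p, (X - C ((a.val : ℕ) : ℤ)) = C (p : ℤ) * Q := by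
  have h : (C (p : ℤ) : ℤ[X]) ∣ (X ^ p - X : ℤ[X]) - ∏ a : ZMod p, (X - C ((a.val : ℕ) : ℤ)) := by
    rw [C_dvd_iff_dvd_coeff]
    intro i
    rw [← ZMod.intCast_zmod_eq_zero_iff_dvd]
    have hmap : ((X ^ p - X : ℤ[X]) - ∏ a : ZMod p, (X - C ((a.val : ℕ) : ℤ))).map
        (Int.castRingHom (ZMod p)) = 0 := by
      rw [Polynomial.map_sub, Polynomial.map_sub, Polynomial.map_pow, Polynomial.map_X,
        Polynomial.map_prod]
      have h1 : ∀ a : ZMod p, (X - C ((a.val : ℕ) : ℤ) : ℤ[X]).map (Int.castRingHom (ZMod p)) =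
          X - C a := by
        intro a
        rw [Polynomial.map_sub, Polynomial.map_X, Polynomial.map_C]
        simp
      rw [Finset.prod_congr rfl (fun a _ => h1 a)]
      have hm : (X ^ p - X : (ZMod p)[X]).Monic := by
        have hp := (Fact.out : p.Prime)
        apply monic_X_pow_sub
        rw [degree_X]
        exact_mod_cast hp.one_lt
      have hr : (X ^ p - X : (ZMod p)[X]).roots = Finset.univ.val := by
        have := FiniteField.roots_X_pow_card_sub_X (ZMod p)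
        rwa [ZMod.card] at this
      have hc : Multiset.card (X ^ p - X : (ZMod p)[X]).roots =
          (X ^ p - X : (ZMod p)[X]).natDegree := by
        rw [hr, FiniteField.X_pow_card_sub_X_natDegree_eq _ (Fact.out : p.Prime).one_lt]
        simp [ZMod.card]
      have h2 := prod_multiset_X_sub_C_of_monic_of_roots_card_eq hm hc
      rw [hr] at h2
      rw [sub_eq_zero, ← h2]
      rfl
    have h3 := congrArg (fun f => Polynomial.coeff f i) hmap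
    simp only [Polynomial.coeff_map, Polynomial.coeff_zero] at h3
    exact h3
  exact h

section cong
variable {K : Type} [NormedField K] [IsUltrametricDist K]

theorem gtf_int (a : ℤ) : ‖(a : K)‖ ≤ 1 := IsUltrametricDist.norm_intCast_le_one K a

theorem gtf_aeval {x : K} (hx : ‖x‖ ≤ 1) (Q : ℤ[X]) : ‖aeval x Q‖ ≤ 1 := by
  induction Q using Polynomial.induction_on with
  | C a => rw [aeval_C]; exact gtf_int a
  | add f g hf hg => rw [map_add]; exact add_le' hf hg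
  | monomial n a _ =>
    rw [map_mul, map_pow, aeval_X, aeval_C, norm_mul, norm_pow]
    exact mul_le_one₀ (gtf_int a) (pow_nonneg (norm_nonneg _) _)
      (pow_le_one₀ (norm_nonneg _) hx)

/-- not congruent to an integer: not a fixed point of the Frobenius map -/
theorem gtf_frob [CharZero K] {p : ℕ} (hp : p.Prime) (hE : Ext p K) {x : K} (hx : ‖x‖ ≤ 1)
    (h : ∀ m : ℤ, ‖x - m‖ = 1) : ‖x - x ^ p‖ = 1 := by
  have : Fact p.Prime := ⟨hp⟩
  obtain ⟨Q, hQ⟩ := gtf_lift p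
  have h1 := congrArg (fun f => aeval x f) hQ
  simp only [map_sub, map_pow, aeval_X, map_prod, map_mul, aeval_C] at h1
  have h2 : ‖∏ a : ZMod p, (x - algebraMap ℤ K ((a.val : ℕ) : ℤ))‖ = 1 := by
    rw [norm_prod]
    apply Finset.prod_eq_one
    intro a _
    exact h _
  have h3 : ‖algebraMap ℤ K (p : ℤ) * aeval x Q‖ ≤ (p : ℝ)⁻¹ := by
    have h4 : algebraMap ℤ K (p : ℤ) = (p : K) := by simp
    rw [norm_mul, h4, norm_p hp hE]
    have := gtf_aeval hx Q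
    have h5 : (0 : ℝ) ≤ (p : ℝ)⁻¹ := by positivity
    nlinarith
  have hp1 : (p : ℝ)⁻¹ < 1 := inv_lt_one_of_one_lt₀ (by exact_mod_cast hp.one_lt)
  have h6 : ‖x ^ p - x‖ = 1 := by
    apply norm_one_of_near h2
    rw [h1]
    exact lt_of_le_of_lt h3 hp1
  rw [norm_sub_rev]
  exact h6

/-- Fermat -/
theorem gtf_fermat [CharZero K] {p : ℕ} (hp : p.Prime) (hE : Ext p K) (c : ℤ) (n : ℕ) :
    ‖(c : K) ^ (p ^ n) - c‖ ≤ (p : ℝ)⁻¹ := by
  have : Fact p.Prime := ⟨hp⟩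
  have h1 : (p : ℤ) ∣ c ^ (p ^ n) - c := by
    rw [← ZMod.intCast_zmod_eq_zero_iff_dvd]
    push_cast
    rw [ZMod.pow_card_pow, sub_self]
  obtain ⟨q, hq⟩ := h1
  have h2 : (c : K) ^ (p ^ n) - c = (p : K) * q := by
    have := congrArg (fun t : ℤ => (t : K)) hq
    push_cast at this
    exact this
  rw [h2, norm_mul, norm_p hp hE]
  have := gtf_int (K := K) q
  have h5 : (0 : ℝ) ≤ (p : ℝ)⁻¹ := by positivity
  nlinarith

/-- additivity of the powers `p ^ n` modulo `p` -/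
theorem gtf_add [CharZero K] {p : ℕ} (hp : p.Prime) (hE : Ext p K) {x y : K} (hx : ‖x‖ ≤ 1) (hy : ‖y‖ ≤ 1)
    (c : ℤ) (n : ℕ) :
    ‖(x + c * y) ^ (p ^ n) - (x ^ (p ^ n) + c * y ^ (p ^ n))‖ ≤ (p : ℝ)⁻¹ := by
  have h5 : (0 : ℝ) ≤ (p : ℝ)⁻¹ := by positivity
  have hcy : ‖(c : K) * y‖ ≤ 1 := by
    rw [norm_mul]
    exact mul_le_one₀ (gtf_int c) (norm_nonneg _) hy
  rw [add_pow_prime_pow_eq' hp x ((c : K) * y) n]
  have e : x ^ p ^ n + ((c : K) * y) ^ p ^ n +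
      (p : K) * ∑ k ∈ Finset.Ioo 0 (p ^ n), x ^ k * ((c : K) * y) ^ (p ^ n - k) *
        ((((p ^ n).choose k / p : ℕ)) : K) - (x ^ (p ^ n) + c * y ^ (p ^ n)) =
      (p : K) * ∑ k ∈ Finset.Ioo 0 (p ^ n), x ^ k * ((c : K) * y) ^ (p ^ n - k) *
        ((((p ^ n).choose k / p : ℕ)) : K) + ((c : K) ^ (p ^ n) - c) * y ^ (p ^ n) := by
    rw [mul_pow]; ring
  rw [e]
  refine add_le' ?_ ?_
  · rw [norm_mul, norm_p hp hE]
    have : ‖∑ k ∈ Finset.Ioo 0 (p ^ n), x ^ k * ((c : K) * y) ^ (p ^ n - k) *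
        ((((p ^ n).choose k / p : ℕ)) : K)‖ ≤ 1 := by
      apply IsUltrametricDist.norm_sum_le_of_forall_le_of_nonneg zero_le_one
      intro k _
      rw [norm_mul, norm_mul, norm_pow, norm_pow]
      have a1 : ‖x‖ ^ k ≤ 1 := pow_le_one₀ (norm_nonneg _) hx
      have a2 : ‖(c : K) * y‖ ^ (p ^ n - k) ≤ 1 := pow_le_one₀ (norm_nonneg _) hcy
      have a3 : ‖((((p ^ n).choose k / p : ℕ)) : K)‖ ≤ 1 := norm_nat_le (p := p) _
      exact mul_le_one₀ (mul_le_one₀ a1 (pow_nonneg (norm_nonneg _) _) a2) (norm_nonneg _) a3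
    nlinarith
  · rw [norm_mul, norm_pow]
    have a1 := gtf_fermat hp hE c n
    have a2 : ‖y‖ ^ (p ^ n) ≤ 1 := pow_le_one₀ (norm_nonneg _) hy
    have a3 : 0 ≤ ‖y‖ ^ (p ^ n) := pow_nonneg (norm_nonneg _) _
    nlinarith [norm_nonneg ((c : K) ^ (p ^ n) - c)]

/-- `x ↦ (x - x ^ p) ^ (p ^ k)` is linear modulo `p` -/
theorem gtf_lin [CharZero K] {p : ℕ} (hp : p.Prime) (hE : Ext p K) {x y : K} (hx : ‖x‖ ≤ 1) (hy : ‖y‖ ≤ 1)
    (c : ℤ) (k : ℕ) :
    ‖((x + c * y) - (x + c * y) ^ p) ^ (p ^ k) -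
      ((x - x ^ p) ^ (p ^ k) + c * (y - y ^ p) ^ (p ^ k))‖ ≤ (p : ℝ)⁻¹ := by
  have pw : ∀ {w : K}, ‖w‖ ≤ 1 → ∀ n : ℕ, ‖w ^ n‖ ≤ 1 := by
    intro w hw n
    rw [norm_pow]
    exact pow_le_one₀ (norm_nonneg _) hw
  have hcy : ∀ {w : K}, ‖w‖ ≤ 1 → ‖(c : K) * w‖ ≤ 1 := by
    intro w hw
    rw [norm_mul]
    exact mul_le_one₀ (gtf_int c) (norm_nonneg _) hw
  have hu : ‖x - x ^ p‖ ≤ 1 := sub_le' hx (pw hx p)
  have hv : ‖y - y ^ p‖ ≤ 1 := sub_le' hy (pw hy p)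
  have hxy : ‖x + c * y‖ ≤ 1 := add_le' hx (hcy hy)
  have s1 : ‖((x + c * y) - (x + c * y) ^ p) - ((x - x ^ p) + c * (y - y ^ p))‖ ≤ (p : ℝ)⁻¹ := by
    have h := gtf_add hp hE hx hy c 1
    rw [pow_one] at h
    have e : ((x + c * y) - (x + c * y) ^ p) - ((x - x ^ p) + c * (y - y ^ p)) =
        -((x + c * y) ^ p - (x ^ p + c * y ^ p)) := by ring
    rw [e, norm_neg]
    exact h
  have s2 := (pow_near (sub_le' hxy (pw hxy p)) (add_le' hu (hcy hv)) (p ^ k)).trans s1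
  have s3 := gtf_add hp hE hu hv c k
  exact tri s2 s3

/-- the norm of the combination in the second case -/
theorem gtf_key [CharZero K] {p : ℕ} (hp : p.Prime) (hE : Ext p K) {r r' : K} (hr : ‖r‖ ≤ 1)
    (hr' : ‖r'‖ ≤ 1) (c N : ℤ) (k : ℕ) (hN : (p : ℤ) ∣ N + c)
    (h : ∀ m : ℤ, ‖(r - c * r') - m‖ = 1) :
    ‖((-1 : ℤ) : K) * (r - r ^ p) ^ (p ^ k) + ((-N : ℤ) : K) * (r' - r' ^ p) ^ (p ^ k)‖ = 1 := by
  have hp1 : (p : ℝ)⁻¹ < 1 := inv_lt_one_of_one_lt₀ (by exact_mod_cast hp.one_lt)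
  have h5 : (0 : ℝ) ≤ (p : ℝ)⁻¹ := by positivity
  have pw : ∀ {w : K}, ‖w‖ ≤ 1 → ∀ n : ℕ, ‖w ^ n‖ ≤ 1 := by
    intro w hw n
    rw [norm_pow]
    exact pow_le_one₀ (norm_nonneg _) hw
  have hg : ‖r - c * r'‖ ≤ 1 := by
    refine sub_le' hr ?_
    rw [norm_mul]
    exact mul_le_one₀ (gtf_int c) (norm_nonneg _) hr'
  have h1 : ‖((r - c * r') - (r - c * r') ^ p) ^ (p ^ k)‖ = 1 := by
    rw [norm_pow, gtf_frob hp hE hg h, one_pow]
  have h2 := gtf_lin hp hE hr hr' (-c) k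
  have e1 : r + ((-c : ℤ) : K) * r' = r - c * r' := by push_cast; ring
  rw [e1] at h2
  have h3 : ‖(r - r ^ p) ^ (p ^ k) + ((-c : ℤ) : K) * (r' - r' ^ p) ^ (p ^ k)‖ = 1 := by
    apply norm_one_of_near h1
    rw [norm_sub_rev]
    exact lt_of_le_of_lt h2 hp1
  obtain ⟨q, hq⟩ := hN
  have h4 : (N : K) + c = (p : K) * q := by
    have := congrArg (fun t : ℤ => (t : K)) hq
    push_cast at this
    exact this
  have h6 : ‖-(((r - r ^ p) ^ (p ^ k) + ((-c : ℤ) : K) * (r' - r' ^ p) ^ (p ^ k)))‖ = 1 := by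
    rw [norm_neg]; exact h3
  apply norm_one_of_near h6
  have e2 : ((-1 : ℤ) : K) * (r - r ^ p) ^ (p ^ k) + ((-N : ℤ) : K) * (r' - r' ^ p) ^ (p ^ k) -
      -(((r - r ^ p) ^ (p ^ k) + ((-c : ℤ) : K) * (r' - r' ^ p) ^ (p ^ k))) =
      -((p : K) * q * (r' - r' ^ p) ^ (p ^ k)) := by
    rw [← h4]; push_cast; ring
  rw [e2, norm_neg, norm_mul, norm_mul, norm_p hp hE]
  have a1 := gtf_int (K := K) q
  have a2 : ‖(r' - r' ^ p) ^ (p ^ k)‖ ≤ 1 := pw (sub_le' hr' (pw hr' p)) _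
  have a3 : (p : ℝ)⁻¹ * ‖(q : K)‖ ≤ (p : ℝ)⁻¹ := by nlinarith
  have a4 : 0 ≤ (p : ℝ)⁻¹ * ‖(q : K)‖ := by positivity
  nlinarith [norm_nonneg ((r' - r' ^ p) ^ (p ^ k))]

end cong

theorem gtf (urr : URRStmt) (thb : THBStmt) (_wwn : WWNStmt) (lgb : LgbStmt) (gps : GpsStmt)
    (gtp : GtpStmt) : GtfStmt := by
  intro p hp hp11 K _ _ _ hE Log hL z l₁ l₂ l₄ h a h₄ ζ Qv Qu A B ρ hρ hz hz1 hl₁ hl₂ hl₄ hD hh ha
    hh₄ hζ H1 H2 H3 hA hB hAB hG
  obtain ⟨ht1, ht0, htlt, htp, -⟩ := thb p hp (by omega)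
  obtain ⟨⟨L1, Lz⟩, Ldiv, -, Lth, -, Lu, -⟩ := lgb p hp (by omega) K hE Log hL
  obtain ⟨ur1, -, -, -, -⟩ := urr p hp K hE
  have hp0R : (0 : ℝ) < p := by exact_mod_cast hp.pos
  have hpK : (p : K) ≠ 0 := by exact_mod_cast hp.ne_zero
  have hnp : ‖(p : K)‖ = (p : ℝ)⁻¹ := norm_p hp hE
  have hpinv1 : (p : ℝ)⁻¹ < 1 := inv_lt_one_of_one_lt₀ (by exact_mod_cast hp.one_lt)
  -- powers of `th`
  have t2 : th p ^ 2 < 1 := pow_lt_one₀ ht0.le htlt (by norm_num)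
  have t23 : th p ^ 3 < th p ^ 2 := pow_lt_pow_right_of_lt_one₀ ht0 htlt (by norm_num)
  have t12 : th p ^ 2 < th p := by
    have := pow_lt_pow_right_of_lt_one₀ ht0 htlt (show 1 < 2 by norm_num)
    simpa using this
  have t36 : th p ^ 6 < th p ^ 3 := pow_lt_pow_right_of_lt_one₀ ht0 htlt (by norm_num)
  have hz0 : 0 < ‖z‖ := lt_of_lt_of_le ht0 hz
  have hzne : z ≠ 0 := norm_pos_iff.1 hz0
  have hρ3 : ρ < th p ^ 3 := hρ.trans t36
  obtain ⟨k, ξ, d, hξ, hd, hY, hzξ, hzφ⟩ := gtp p hp (by omega) K hE z l₁ l₂ h ζ ρ hρ3 hz hz1 hl₁ hl₂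
    hD hh hζ H1
  obtain ⟨φ, hφ⟩ : ∃ φ : ℕ, φ = p ^ k * (p - 1) := ⟨_, rfl⟩
  rw [← hφ] at hzφ
  have hφ1 : 1 ≤ φ := by
    rw [hφ]
    have h1 : 1 ≤ p ^ k := Nat.one_le_pow _ _ hp.pos
    have h2 : 1 ≤ p - 1 := by omega
    exact Nat.one_le_iff_ne_zero.2 (Nat.mul_ne_zero (by omega) (by omega))
  have hd3 : ‖d‖ < th p ^ 3 := lt_of_le_of_lt hd (max_lt hρ3 htp)
  have hd1 : ‖d‖ < 1 := hd3.trans (t23.trans t2)
  -- norms of the parameters
  have hna : ‖a‖ = 1 := ha.2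
  have hnh₄ : ‖h₄‖ = 1 := hh₄.2
  have hul : ‖1 + l₄ * z‖ = 1 := by
    apply norm_one_of_near (y := 1) norm_one
    have e : 1 + l₄ * z - 1 = l₄ * z := by ring
    rw [e, norm_mul]
    have := hl₄.1
    nlinarith [norm_nonneg l₄]
  have hρz : ρ < ‖z‖ := by
    have : th p ^ 3 < th p := t23.trans t12
    linarith
  have hρ1 : ρ < 1 := hρz.trans hz1
  have hnv : ‖(p : K) * Qv‖ = ‖z‖ := by
    have e : ‖a * z‖ = ‖z‖ := by rw [norm_mul, hna, one_mul]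
    rw [← e]
    apply norm_eq_of_near
    rw [e]
    exact lt_of_le_of_lt H2 hρz
  have hnu : ‖(p : K) * Qu‖ = 1 := by
    have e : ‖h₄ * (1 + l₄ * z)‖ = 1 := by rw [norm_mul, hnh₄, hul, one_mul]
    exact norm_one_of_near e (lt_of_le_of_lt H3 hρ1)
  have hv0 : Qv ≠ 0 := by
    intro h0
    rw [h0, mul_zero, norm_zero] at hnv
    exact hz0.ne hnv
  have hu0 : Qu ≠ 0 := by
    intro h0
    rw [h0, mul_zero, norm_zero] at hnu
    exact zero_ne_one hnu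
  -- the exponents
  have hrel : ‖z‖ ^ A * (p : ℝ) ^ A = (p : ℝ) ^ B := by
    have e1 : ‖Qv‖ = ‖z‖ * p := by
      rw [norm_mul, hnp] at hnv
      field_simp at hnv
      linarith
    have e2 : ‖Qu‖ = p := by
      rw [norm_mul, hnp] at hnu
      field_simp at hnu
      linarith
    have e3 : ‖Qv‖ ^ A = ‖Qu‖ ^ B := by rw [← norm_pow, ← norm_pow, hAB]
    rw [e1, e2, mul_pow] at e3
    exact e3
  have hexp : A + φ * B = φ * A := by
    have hpz : (p : ℝ) * ‖z‖ ^ φ = 1 := by rw [hzφ]; field_simp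
    have e1 : ‖z‖ ^ (A + φ * B) = ‖z‖ ^ (φ * A) := by
      have e2 : ‖z‖ ^ (A + φ * B) * ((p : ℝ) * ‖z‖ ^ φ) ^ A =
          ‖z‖ ^ (φ * A) * ((p : ℝ) * ‖z‖ ^ φ) ^ B := by
        rw [mul_pow, mul_pow, pow_add, ← pow_mul, ← pow_mul]
        calc ‖z‖ ^ A * ‖z‖ ^ (φ * B) * ((p : ℝ) ^ A * ‖z‖ ^ (φ * A))
            = (‖z‖ ^ A * (p : ℝ) ^ A) * (‖z‖ ^ (φ * B) * ‖z‖ ^ (φ * A)) := by ring
          _ = (p : ℝ) ^ B * (‖z‖ ^ (φ * B) * ‖z‖ ^ (φ * A)) := by rw [hrel]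
          _ = ‖z‖ ^ (φ * A) * ((p : ℝ) ^ B * ‖z‖ ^ (φ * B)) := by ring
      rw [hpz, one_pow, one_pow, mul_one, mul_one] at e2
      exact e2
    exact (pow_right_injective₀ hz0 hz1.ne) e1
  have hBA : B < A := by
    by_contra hcon
    have h1 : φ * A ≤ φ * B := Nat.mul_le_mul_left _ (not_lt.1 hcon)
    omega
  obtain ⟨A', hA'⟩ : ∃ A', A = B + A' := ⟨A - B, by omega⟩
  have hA'0 : A' ≠ 0 := by omega
  have hA2 : A = φ * A' := by
    rw [hA', Nat.mul_add] at hexp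
    omega
  have hB2 : (B : ℤ) = ((φ : ℤ) - 1) * A' := by
    have h1 : (A : ℤ) = φ * A' := by exact_mod_cast hA2
    have h2 : (A : ℤ) = B + A' := by exact_mod_cast hA'
    linarith
  -- logarithms
  have hLog1 : (φ : K) * Log Qv = ((φ : K) - 1) * Log Qu := by
    have e1 : (A : K) * Log Qv = (B : K) * Log Qu := by
      have h1 := Lz Qv (A : ℤ) hv0
      have h2 := Lz Qu (B : ℤ) hu0
      rw [zpow_natCast] at h1 h2
      rw [hAB] at h1
      rw [h1] at h2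
      exact_mod_cast h2
    have e2 : (A : K) = φ * A' := by exact_mod_cast congrArg (fun t : ℕ => (t : K)) hA2
    have e3 : (B : K) = ((φ : K) - 1) * A' := by
      have := congrArg (fun t : ℤ => (t : K)) hB2
      push_cast at this
      exact this
    have e4 : (A' : K) ≠ 0 := by exact_mod_cast hA'0
    rw [e2, e3] at e1
    have e5 : (A' : K) * ((φ : K) * Log Qv - ((φ : K) - 1) * Log Qu) = 0 := by
      linear_combination e1
    rcases mul_eq_zero.1 e5 with h6 | h6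
    · exact absurd h6 e4
    · exact sub_eq_zero.1 h6
  have hLv : Log ((p : K) * Qv) = Log Qv := by rw [hL.mul _ _ hpK hv0, hL.pp, zero_add]
  have hLu' : Log ((p : K) * Qu) = Log Qu := by rw [hL.mul _ _ hpK hu0, hL.pp, zero_add]
  have one_add_ne : ∀ x : K, ‖x‖ < 1 → 1 + x ≠ 0 := by
    intro x hx h0
    have h1 : ‖1 + x‖ = 1 := by
      apply norm_one_of_near (y := 1) norm_one
      rw [add_sub_cancel_left]
      exact hx
    rw [h0, norm_zero] at h1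
    exact zero_ne_one h1
  have ha0 : a ≠ 0 := by
    intro h0; rw [h0, norm_zero] at hna; exact zero_ne_one hna
  have hh0 : h₄ ≠ 0 := by
    intro h0; rw [h0, norm_zero] at hnh₄; exact zero_ne_one hnh₄
  have hul0 : 1 + l₄ * z ≠ 0 := by
    intro h0; rw [h0, norm_zero] at hul; exact zero_ne_one hul
  -- first error term
  obtain ⟨ε, hε⟩ : ∃ ε : K, ε = ((p : K) * Qv - a * z) / (a * z) := ⟨_, rfl⟩
  have hεn : ‖ε‖ < th p ^ 2 := by
    rw [hε, norm_div, norm_mul a z, hna, one_mul, div_lt_iff₀ hz0]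
    have h1 : th p ^ 3 ≤ th p ^ 2 * ‖z‖ := by
      have : th p ^ 3 = th p ^ 2 * th p := by ring
      rw [this]
      exact mul_le_mul_of_nonneg_left hz (by positivity)
    linarith
  have hεeq : (p : K) * Qv = a * z * (1 + ε) := by
    rw [hε]; field_simp; ring
  obtain ⟨ε', hε'⟩ : ∃ ε' : K, ε' = ((p : K) * Qu - h₄ * (1 + l₄ * z)) / (h₄ * (1 + l₄ * z)) :=
    ⟨_, rfl⟩
  have hε'n : ‖ε'‖ < th p ^ 2 := by
    rw [hε', norm_div, norm_mul h₄, hnh₄, hul, one_mul, div_one]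
    linarith
  have hε'eq : (p : K) * Qu = h₄ * (1 + l₄ * z) * (1 + ε') := by
    rw [hε']; field_simp; ring
  have hε1 : ‖ε‖ < 1 := hεn.trans t2
  have hε'1 : ‖ε'‖ < 1 := hε'n.trans t2
  have LQv : Log Qv = Log a + Log z + Log (1 + ε) := by
    rw [← hLv, hεeq, hL.mul _ _ (mul_ne_zero ha0 hzne) (one_add_ne ε hε1), hL.mul _ _ ha0 hzne]
  have LQu : Log Qu = Log h₄ + Log (1 + l₄ * z) + Log (1 + ε') := by
    rw [← hLu', hε'eq, hL.mul _ _ (mul_ne_zero hh0 hul0) (one_add_ne ε' hε'1),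
      hL.mul _ _ hh0 hul0]
  -- the parameter `y`
  obtain ⟨y, hy⟩ : ∃ y : K, y = ξ * (1 + d) - 1 := ⟨_, rfl⟩
  obtain ⟨D, hDd⟩ : ∃ D : K, D = l₁ - l₂ := ⟨_, rfl⟩
  rw [← hDd] at hD
  have hD0 : D ≠ 0 := by
    intro h0; rw [h0, norm_zero] at hD; exact zero_ne_one hD
  obtain ⟨r, hr⟩ : ∃ r : K, r = -l₂ / D := ⟨_, rfl⟩
  obtain ⟨r', hr'⟩ : ∃ r' : K, r' = (l₄ - l₂) / D := ⟨_, rfl⟩
  have hnr : ‖r‖ ≤ 1 := by
    rw [hr, norm_div, hD, div_one, norm_neg]; exact hl₂.1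
  have hnr' : ‖r'‖ ≤ 1 := by
    rw [hr', norm_div, hD, div_one]; exact sub_le' hl₄.1 hl₂.1
  have hξ1 : ‖ξ‖ = 1 := by
    apply norm_one_of_near (y := 1) norm_one
    rw [← hzξ]; exact hz1
  have hny : ‖y‖ < 1 := by
    have e : y = (ξ - 1) + ξ * d := by rw [hy]; ring
    rw [e]
    refine lt_of_le_of_lt (IsUltrametricDist.norm_add_le_max _ _) (max_lt ?_ ?_)
    · rw [← hzξ]; exact hz1
    · rw [norm_mul, hξ1, one_mul]; exact hd1
  have hry : ‖r * y‖ < 1 := by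
    rw [norm_mul]; nlinarith [norm_nonneg r, norm_nonneg y]
  have hr'y : ‖r' * y‖ < 1 := by
    rw [norm_mul]; nlinarith [norm_nonneg r', norm_nonneg y]
  have E1 : y = z * D * (1 + r * y) := by
    have e1 : z * D * (1 + r * y) = z * (D - l₂ * y) := by rw [hr]; field_simp; ring
    rw [e1, hDd, hy]
    linear_combination (-1 : K) * hY
  have E2 : 1 + r' * y = (1 + l₄ * z) * (1 + r * y) := by
    have e1 : D * (1 + r' * y) = D + (l₄ - l₂) * y := by rw [hr']; field_simp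
    have e2 : D * (1 + r * y) = D - l₂ * y := by rw [hr]; field_simp; ring
    have e3 : y = z * (D - l₂ * y) := by
      rw [← e2]; linear_combination E1
    apply mul_left_cancel₀ hD0
    rw [e1]
    linear_combination (-(1 + l₄ * z)) * e2 + l₄ * e3
  have hone : 1 + r * y ≠ 0 := one_add_ne _ hry
  have LY : Log y = Log z + Log D + Log (1 + r * y) := by
    have h1 : Log (z * D * (1 + r * y)) = Log z + Log D + Log (1 + r * y) := by
      rw [hL.mul _ _ (mul_ne_zero hzne hD0) hone, hL.mul _ _ hzne hD0]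
    rw [← h1, ← E1]
  have LR' : Log (1 + r' * y) = Log (1 + l₄ * z) + Log (1 + r * y) := by
    rw [E2, hL.mul _ _ hul0 hone]
  -- `Ψ`
  have hΨ : (φ : K) * Log y + ((-1 : ℤ) : K) * Log (1 + r * y) +
      ((-((φ : ℤ) - 1) : ℤ) : K) * Log (1 + r' * y) =
      (φ : K) * Log D + ((φ : K) - 1) * (Log h₄ + Log (1 + ε')) -
        (φ : K) * (Log a + Log (1 + ε)) := by
    rw [LQv, LQu] at hLog1
    rw [LY, LR']
    push_cast
    linear_combination hLog1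
  have hφn : ‖(φ : K)‖ ≤ 1 := norm_nat_le (p := p) φ
  have hφ1n : ‖(φ : K) - 1‖ ≤ 1 := sub_le' hφn (by rw [norm_one])
  have hDu : Uu p D := by
    refine ⟨?_, hD⟩
    rw [hDd]
    exact (ur1 l₁ l₂ hl₁ hl₂).2.2.2
  have hpt2 : (p : ℝ)⁻¹ < th p ^ 2 := htp.trans t23
  have bnd : ‖(φ : K) * Log D + ((φ : K) - 1) * (Log h₄ + Log (1 + ε')) -
        (φ : K) * (Log a + Log (1 + ε))‖ < th p ^ 2 := by
    have b1 : ‖Log D‖ < th p ^ 2 := lt_of_le_of_lt (Lu D hDu) hpt2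
    have b2 : ‖Log h₄‖ < th p ^ 2 := lt_of_le_of_lt (Lu h₄ hh₄) hpt2
    have b3 : ‖Log a‖ < th p ^ 2 := lt_of_le_of_lt (Lu a ha) hpt2
    have b4 : ‖Log (1 + ε)‖ < th p ^ 2 := by rw [Lth ε (hεn.trans t12)]; exact hεn
    have b5 : ‖Log (1 + ε')‖ < th p ^ 2 := by rw [Lth ε' (hε'n.trans t12)]; exact hε'n
    have addlt : ∀ {x y : K}, ‖x‖ < th p ^ 2 → ‖y‖ < th p ^ 2 → ‖x + y‖ < th p ^ 2 := by
      intro x y hx hy
      exact lt_of_le_of_lt (IsUltrametricDist.norm_add_le_max _ _) (max_lt hx hy)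
    have mullt : ∀ {c x : K}, ‖c‖ ≤ 1 → ‖x‖ < th p ^ 2 → ‖c * x‖ < th p ^ 2 := by
      intro c x hc hx
      rw [norm_mul]
      nlinarith [norm_nonneg c, norm_nonneg x]
    rw [sub_eq_add_neg]
    refine addlt (addlt (mullt hφn b1) (mullt hφ1n (addlt b2 b5))) ?_
    rw [norm_neg]
    exact mullt hφn (addlt b3 b4)
  have hdk : ‖d‖ ^ (p ^ k) < th p ^ 3 := by
    refine lt_of_le_of_lt ?_ hd3
    have h1 : 1 ≤ p ^ k := Nat.one_le_pow _ _ hp.pos
    calc ‖d‖ ^ (p ^ k) ≤ ‖d‖ ^ 1 := pow_le_pow_of_le_one (norm_nonneg _) hd1.le h1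
      _ = ‖d‖ := pow_one _
  -- the general conclusion
  have concl : ∀ (r₁ r₂ : K) (n₁ n₂ : ℤ), ‖r₁‖ ≤ 1 → ‖r₂‖ ≤ 1 →
      (((n₁ = 0 ∨ r₁ = 0 ∨ (r₁ = 1 ∧ (‖d‖ < th p ^ 3 ∨ (p : ℤ) ^ k ∣ n₁))) ∧
        (n₂ = 0 ∨ r₂ = 0 ∨ (r₂ = 1 ∧ (‖d‖ < th p ^ 3 ∨ (p : ℤ) ^ k ∣ n₂)))) ∨
      (‖(n₁ : K) * (r₁ - r₁ ^ p) ^ (p ^ k) + (n₂ : K) * (r₂ - r₂ ^ p) ^ (p ^ k)‖ =
          max ‖(n₁ : K)‖ ‖(n₂ : K)‖ ∧ ((p : ℝ)⁻¹) ^ k ≤ max ‖(n₁ : K)‖ ‖(n₂ : K)‖)) →
      (φ : K) * Log y + (n₁ : K) * Log (1 + r₁ * y) + (n₂ : K) * Log (1 + r₂ * y) =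
        (φ : K) * Log D + ((φ : K) - 1) * (Log h₄ + Log (1 + ε')) -
        (φ : K) * (Log a + Log (1 + ε)) → False := by
    intro r₁ r₂ n₁ n₂ h1 h2 h3 h4
    have h5 := gps p hp (by omega) K hE Log hL k ξ d r₁ r₂ n₁ n₂ hξ hd1 hdk h1 h2 h3
    rw [← hy, ← hφ, h4] at h5
    exact absurd bnd (not_lt.2 h5)
  have r0 : l₂ = 0 → r = 0 := by intro h0; rw [hr, h0]; simp
  have r1 : l₁ = 0 → r = 1 := by
    intro h0
    have : D = -l₂ := by rw [hDd, h0]; ring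
    rw [hr, ← this, div_self hD0]
  rcases hG with ⟨h12, h4⟩ | hG | ⟨h4, hG⟩
  · -- first case
    refine concl r r' (-1) (-((φ : ℤ) - 1)) hnr hnr' (Or.inl ⟨?_, ?_⟩) hΨ
    · right
      rcases h12 with h0 | h0
      · exact Or.inr ⟨r1 h0, Or.inl hd3⟩
      · exact Or.inl (r0 h0)
    · right
      rcases h4 with h0 | h0
      · right
        refine ⟨?_, Or.inl hd3⟩
        rw [hr', h0, hDd, div_self (by rw [← hDd]; exact hD0)]
      · left
        rw [hr', h0, sub_self, zero_div]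
  · -- second case
    have hn1 : ‖((-1 : ℤ) : K)‖ = 1 := by push_cast; rw [norm_neg, norm_one]
    have hn2 : ‖((-((φ : ℤ) - 1) : ℤ) : K)‖ ≤ 1 := gtf_int _
    have hmax : max ‖((-1 : ℤ) : K)‖ ‖((-((φ : ℤ) - 1) : ℤ) : K)‖ = 1 := by
      rw [hn1]; exact max_eq_left hn2
    have hpk : ((p : ℝ)⁻¹) ^ k ≤ 1 := pow_le_one₀ (by positivity) hpinv1.le
    refine concl r r' (-1) (-((φ : ℤ) - 1)) hnr hnr' (Or.inr ⟨?_, ?_⟩) hΨ
    · rw [hmax]
      rcases Nat.eq_zero_or_pos k with hk | hk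
      · -- `k = 0`
        refine gtf_key hp hE hnr hnr' 2 ((φ : ℤ) - 1) k ?_ ?_
        · rw [hφ, hk, pow_zero, one_mul]
          refine ⟨1, ?_⟩
          have : 1 ≤ p := hp.pos
          push_cast [Nat.cast_sub this]
          ring
        · intro m
          have e1 : r - ((2 : ℤ) : K) * r' - m = (l₂ - 2 * l₄ - m * (l₁ - l₂)) / D := by
            rw [hr, hr', ← hDd]; push_cast; field_simp; ring
          rw [e1, norm_div, hD, div_one]
          exact (hG m).2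
      · refine gtf_key hp hE hnr hnr' 1 ((φ : ℤ) - 1) k ?_ ?_
        · rw [hφ]
          obtain ⟨k', rfl⟩ : ∃ k', k = k' + 1 := ⟨k - 1, by omega⟩
          have : ((p ^ (k' + 1) * (p - 1) : ℕ) : ℤ) - 1 + 1 =
              (p : ℤ) * ((p ^ k' * (p - 1) : ℕ) : ℤ) := by
            push_cast; ring
          rw [this]
          exact Dvd.intro _ rfl
        · intro m
          have e1 : r - ((1 : ℤ) : K) * r' - m = -((l₄ - ((-m : ℤ) : K) * (l₁ - l₂)) / D) := by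
            rw [hr, hr', ← hDd]; push_cast; field_simp; ring
          rw [e1, norm_neg, norm_div, hD, div_one]
          exact (hG (-m)).1
    · rw [hmax]; exact hpk
  · -- third case
    have hrr : r' = r := by rw [hr', hr, h4, zero_sub]
    have hΨ' : (φ : K) * Log y + ((-(φ : ℤ) : ℤ) : K) * Log (1 + r * y) +
        ((0 : ℤ) : K) * Log (1 + 0 * y) =
        (φ : K) * Log D + ((φ : K) - 1) * (Log h₄ + Log (1 + ε')) -
        (φ : K) * (Log a + Log (1 + ε)) := by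
      rw [hrr] at hΨ
      rw [← hΨ]
      push_cast
      ring
    refine concl r 0 (-(φ : ℤ)) 0 hnr (by rw [norm_zero]; exact zero_le_one) ?_ hΨ'
    rcases hG with h0 | h0 | hG
    · exact Or.inl ⟨Or.inr (Or.inr ⟨r1 h0, Or.inl hd3⟩), Or.inl rfl⟩
    · exact Or.inl ⟨Or.inr (Or.inl (r0 h0)), Or.inl rfl⟩
    · right
      have hx : ∀ m : ℤ, ‖r - m‖ = 1 := by
        intro m
        have e1 : r - m = -((l₂ - ((-m : ℤ) : K) * (l₁ - l₂)) / D) := by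
          rw [hr, ← hDd]; push_cast; field_simp; ring
        rw [e1, norm_neg, norm_div, hD, div_one]
        exact hG (-m)
      have hf := gtf_frob hp hE hnr hx
      have hmax : max ‖((-(φ : ℤ) : ℤ) : K)‖ ‖((0 : ℤ) : K)‖ = ((p : ℝ)⁻¹) ^ k := by
        have h1 : ‖((-(φ : ℤ) : ℤ) : K)‖ = ((p : ℝ)⁻¹) ^ k := by
          push_cast
          rw [norm_neg, hφ]
          push_cast
          rw [norm_mul, norm_pow, hnp]
          have h2 : ‖((p - 1 : ℕ) : K)‖ = 1 := by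
            apply norm_nat_eq_one hp hE
            intro hdv
            have := Nat.le_of_dvd (by omega) hdv
            omega
          rw [h2, mul_one]
        rw [h1, Int.cast_zero, norm_zero]
        exact max_eq_left (by positivity)
      refine ⟨?_, le_of_eq hmax.symm⟩
      rw [hmax]
      rw [Int.cast_zero, zero_mul, add_zero, norm_mul, norm_pow, hf, one_pow, mul_one]
      rw [Int.cast_zero, norm_zero] at hmax
      rw [← hmax]
      exact (max_eq_left (norm_nonneg _)).symm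

end

end Pool.Agent.ZPK.H26
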