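import Pool.Agent.ZPK.StmtsR2
import Pool.Agent.Helper51_ZP3.Near

/-!
# Squad ZPK, row RRR: two radial pairs
-/

set_option autoImplicit false

namespace Pool.Agent.ZPK.H26

open Polynomial Pool.Agent.ZPT Pool.Agent.ZP3 Pool.Agent.ZP3.H51

noncomputable section

theorem rrr_fi {K : Type} [NormedField K] {n : ℕ} {S : Set (Fin n)} {lam : Fin n → K} (h : FI S lam)
    {j l : Fin n} (hj : j ∈ S) (hl : l ∈ S) (hjl : j ≠ l) : ‖lam j - lam l‖ = 1 := by
  have h1 := h (fun u => if u = j then 1 else if u = l then -1 else 0)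
    (fun u => if u = j then 1 else 0)
    (by
      intro u
      refine ⟨?_, ?_, ?_⟩
      · split_ifs <;> norm_num
      · split_ifs <;> norm_num
      · intro hu
        have hu1 : u ≠ j := fun h => hu (h ▸ hj)
        have hu2 : u ≠ l := fun h => hu (h ▸ hl)
        simp [hu1, hu2])
    ⟨j, l, by simp [hjl.symm]⟩ 0
  have h2 : (∑ u, (((if u = j then (1 : ℤ) else if u = l then -1 else 0) -
      0 * (if u = j then 1 else 0) : ℤ) : K) * lam u) = lam j - lam l := by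
    have h3 : ∀ u : Fin n, (((if u = j then (1 : ℤ) else if u = l then -1 else 0) -
      0 * (if u = j then 1 else 0) : ℤ) : K) * lam u =
        (if u = j then lam u else 0) - (if u = l then lam u else 0) := by
      intro u
      by_cases h4 : u = j
      · subst h4
        simp [hjl]
      · by_cases h5 : u = l
        · subst h5
          simp [h4]
        · simp [h4, h5]
    rw [Finset.sum_congr rfl (fun u _ => h3 u), Finset.sum_sub_distrib, Finset.sum_ite_eq',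
      Finset.sum_ite_eq']
    simp
  rw [← h2]
  exact h1

section st
variable {K : Type} [NormedField K]

theorem rrr_lt1 {p a : ℕ} (hp : p.Prime) {t : K} (h : La p a t) : ‖t‖ < 1 := by
  by_contra h1
  have h2 : 1 ≤ ‖t‖ ^ a := one_le_pow₀ (not_lt.mp h1)
  have h3 : (p : ℝ)⁻¹ < 1 := inv_lt_one_of_one_lt₀ (by exact_mod_cast hp.one_lt)
  have h4 : ‖t‖ ^ a < (p : ℝ)⁻¹ := h
  linarith

theorem rrr_state {p a b : ℕ} (hp : p.Prime) {t : K} (ha : La p a t) (hb : Sm p b t) : b < a := by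
  by_contra h1
  have h2 := rrr_lt1 hp ha
  have h3 : ‖t‖ ^ b ≤ ‖t‖ ^ a := pow_le_pow_of_le_one (norm_nonneg _) h2.le (not_lt.mp h1)
  have h4 : ‖t‖ ^ a < (p : ℝ)⁻¹ := ha
  have h5 : (p : ℝ)⁻¹ < ‖t‖ ^ b := hb
  linarith

theorem rrr_min {p a b : ℕ} {t : K} (ha : La p a t) (hb : La p b t) : La p (min a b) t := by
  rcases le_total a b with h | h
  · rw [min_eq_left h]; exact ha
  · rw [min_eq_right h]; exact hb

theorem rrr_max {p a b : ℕ} {t : K} (ha : Sm p a t) (hb : Sm p b t) : Sm p (max a b) t := by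
  rcases le_total a b with h | h
  · rw [max_eq_right h]; exact hb
  · rw [max_eq_left h]; exact ha

end st

/-- the radius of the errors -/
def rmu (p a b : ℕ) (r : ℝ) : ℝ := max r (max (r ^ a / (p : ℝ)⁻¹) ((p : ℝ)⁻¹ / r ^ b))

theorem rrr_lS {K : Type} [NormedField K] {L : Subfield K} {n : ℕ} {e : Fin n → ℕ}
    {A : Fin n → ℕ → K} {g : Fin n → K} (hCd : ∀ i, Cd L (e i) (A i) (g i))
    (hz : ∀ d, 1 ≤ d → FI {i | e i = d} (fun i => A i 0 / g i)) {j l : Fin n} (hjl : j ≠ l)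
    {d : ℕ} (hd : d = max (e j) (e l)) (h1 : 1 ≤ d) :
    ‖lS d (e j) (A j) (g j) - lS d (e l) (A l) (g l)‖ = 1 := by
  have hn : ∀ u, e u = d → ‖A u 0 / g u‖ = 1 := by
    intro u hu
    rw [norm_div, (hCd u).A0 (by omega), (hCd u).g1, div_one]
  unfold lS
  by_cases hj : e j = d
  · by_cases hl : e l = d
    · rw [if_pos hj, if_pos hl]
      exact rrr_fi (hz d h1) (j := j) (l := l) hj hl hjl
    · rw [if_pos hj, if_neg hl, sub_zero]
      exact hn j hj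
  · have hl : e l = d := by omega
    rw [if_neg hj, if_pos hl, zero_sub, norm_neg]
    exact hn l hl

theorem rrr_lL {K : Type} [NormedField K] {L : Subfield K} {n : ℕ} {e : Fin n → ℕ}
    {A : Fin n → ℕ → K} {g : Fin n → K} (hCd : ∀ i, Cd L (e i) (A i) (g i))
    (hz : ∀ d, 1 ≤ d → FI {i | e i = d} (fun i => g i / A i 0)) {j l : Fin n} (hjl : j ≠ l)
    {d : ℕ} (hd : d = min (e j) (e l)) (h1 : 1 ≤ d) :
    ‖lL d (e j) (A j) (g j) - lL d (e l) (A l) (g l)‖ = 1 := by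
  have hn : ∀ u, e u = d → ‖g u / A u 0‖ = 1 := by
    intro u hu
    rw [norm_div, (hCd u).A0 (by omega), (hCd u).g1, div_one]
  unfold lL
  by_cases hj : e j = d
  · by_cases hl : e l = d
    · rw [if_pos hj, if_pos hl]
      exact rrr_fi (hz d h1) (j := j) (l := l) hj hl hjl
    · rw [if_pos hj, if_neg hl, sub_zero]
      exact hn j hj
  · have hl : e l = d := by omega
    rw [if_neg hj, if_pos hl, zero_sub, norm_neg]
    exact hn l hl

theorem rrr_lLn {K : Type} [NormedField K] {L : Subfield K} {a d : ℕ}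
    {A : ℕ → K} {g : K} (hCd : Cd L a A g) (h1 : 1 ≤ a) : ‖lL d a A g‖ ≤ 1 := by
  unfold lL
  split_ifs
  · rw [norm_div, hCd.A0 h1, hCd.g1, div_one]
  · rw [norm_zero]
    exact zero_le_one

/-- the torsion exponents for one radius -/
theorem rrr_inf (inf : InfStmt) {p : ℕ} (hp : p.Prime) (hp5 : 5 ≤ p) {K : Type} [NormedField K]
    [CharZero K] [IsUltrametricDist K] [IsAlgClosed K] (hE : Ext p K) {e₁ e₀ e' m : ℕ}
    {a g δ κ H τ : K} (ha : ‖a‖ = 1) (hg : ‖g‖ = 1) (hδ : δ ≠ 0) (hτ : ‖τ‖ = 1) (he0 : 1 ≤ e₀)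
    (hH : H = 0 ∨ (1 ≤ m ∧ m < e₀))
    (hk : ∀ s : ℚ, e' = 0 → ‖((s : ℚ) : K) * δ - κ‖ = max ‖((s : ℚ) : K) * δ‖ ‖κ‖)
    (x y : ℕ) : ∃ M : ℕ, 1 ≤ M ∧ ∀ (s : ℚ) (t F nu ζ : K), 0 < s → 1 ≤ y → (x : ℚ) = s * y →
      ‖t‖ = (p : ℝ) ^ (-(s : ℝ)) → rmu p e₀ e' ‖t‖ < 1 → ‖F - 1‖ ≤ rmu p e₀ e' ‖t‖ →
      ‖nu - g‖ ≤ rmu p e₀ e' ‖t‖ →
      ‖((s : ℚ) : K) * (δ / t ^ e') - κ - (H * t ^ m + τ * (t ^ e₀ / p))‖ ≤
      rmu p e₀ e' ‖t‖ * max ‖((s : ℚ) : K) * (δ / t ^ e')‖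
        (max (‖H‖ * ‖t‖ ^ m) ‖t ^ e₀ / (p : K)‖) →
      Ro ζ → (t ^ e₁ / (a * F)) ^ y = ζ * ((p : K) / nu) ^ (e₁ * x) → ζ ^ M = 1 := by
  by_cases h : 0 < (x : ℚ) / y ∧ 1 ≤ y ∧ rmu p e₀ e' ((p : ℝ) ^ (-((((x : ℚ) / y : ℚ)) : ℝ))) < 1
  · obtain ⟨h1, h2, h3⟩ := h
    have h4 : 0 ≤ rmu p e₀ e' ((p : ℝ) ^ (-((((x : ℚ) / y : ℚ)) : ℝ))) := by
      unfold rmu
      apply le_max_of_le_left
      positivity
    have hy : (y : ℚ) ≠ 0 := by
      have : (1 : ℚ) ≤ y := by exact_mod_cast h2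
      positivity
    obtain ⟨M, hM, hM2⟩ := inf p hp hp5 K hE ((x : ℚ) / y) y x e₁ e₀ e' m a g δ κ H τ _ h1 h2
      (by field_simp) h4 h3 ha hg hδ hτ he0 hH (hk _)
    refine ⟨M, hM, ?_⟩
    intro s t F nu ζ hs hy1 hx ht hmu hF hnu hin hζ heq
    have hs2 : s = (x : ℚ) / y := by
      rw [hx]; field_simp
    subst hs2
    rw [ht] at hF hnu
    refine hM2 t F nu ζ ht hF hnu ?_ hζ heq
    rw [← ht]
    exact hin
  · refine ⟨1, le_refl _, ?_⟩
    intro s t F nu ζ hs hy1 hx ht hmu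
    exfalso
    apply h
    have hy : (y : ℚ) ≠ 0 := by
      have : (1 : ℚ) ≤ y := by exact_mod_cast hy1
      positivity
    have hs2 : s = (x : ℚ) / y := by
      rw [hx]; field_simp
    subst hs2
    refine ⟨hs, hy1, ?_⟩
    rw [← ht]
    exact hmu

theorem rrr_rat {p : ℕ} (hp : p.Prime) {s s' : ℚ}
    (h : (p : ℝ) ^ (-(s : ℝ)) = (p : ℝ) ^ (-(s' : ℝ))) : s = s' := by
  have hp1 : (1 : ℝ) < p := by exact_mod_cast hp.one_lt
  have h2 : -(s : ℝ) = -(s' : ℝ) := by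
    apply le_antisymm
    · exact (Real.rpow_le_rpow_left_iff hp1).mp h.le
    · exact (Real.rpow_le_rpow_left_iff hp1).mp h.ge
  have h3 : (s : ℝ) = s' := by linarith
  exact_mod_cast h3

/-- RRR -/
theorem rrr (thb : THBStmt) (num : NumStmt) (rnl : RnlStmt) (rsm : RsmStmt) (_rns : RnsStmt)
    (rpx : RpxStmt) (lgl : LglStmt) (kps : KpsStmt) (thn : ThnStmt) (mai : MaiStmt)
    (low : LowStmt) (upp : UppStmt) (ina : InaStmt) (inf : InfStmt) : RrrStmt := by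
  intro U hU p E hp hE1 hpE K _ _ _ _ _ hE Log hLog L hL n e A g hCd heE hFo hGen i j k l hik hjl
    hei hek
  have hE2 : E + 1 ≤ (E + 1) ^ 2 := by nlinarith
  have hp5 : 5 ≤ p := by omega
  have hpE2 : E < p := by omega
  by_cases hee : max (e j) (e l) < min (e i) (e k)
  swap
  · refine ⟨0, ?_⟩
    intro t q ht hLi hLk hSj hSl _ _ _
    exfalso
    apply hee
    have h1 := rrr_state hp hLi hSj
    have h2 := rrr_state hp hLi hSl
    have h3 := rrr_state hp hLk hSj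
    have h4 := rrr_state hp hLk hSl
    omega
  obtain ⟨e₀, he₀⟩ : ∃ e₀, e₀ = min (e i) (e k) := ⟨_, rfl⟩
  obtain ⟨e', he'⟩ : ∃ e', e' = max (e j) (e l) := ⟨_, rfl⟩
  rw [← he₀, ← he'] at hee
  have he01 : 1 ≤ e₀ := by omega
  have hiE := heE i
  have hkE := heE k
  have hjE := heE j
  have hlE := heE l
  have he0E : e₀ ≤ E := by omega
  obtain ⟨_, hth0, hth1, -, -⟩ := thb p hp hp5
  -- delta
  obtain ⟨δ, hδ, hδ0, hδt⟩ := thn U hU p hp hp5 K hE Log hLog L hL e' (e j) (e l) (A j) (A l) (g j)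
    (g l) (hCd j) (hCd l) he' (fun h => rrr_lS hCd hGen.zero hjl he' h)
    (by
      intro h0
      have h1 := (hGen.sq j l hjl (by omega) (by omega)).1
      rw [norm_div, norm_p hp hE] at h1
      have h2 : (p : ℝ)⁻¹ ≠ 0 := by
        have := hp.pos
        positivity
      rw [div_eq_iff h2, one_mul] at h1
      exact h1)
  -- main term
  obtain ⟨m, H, τ, hH, hτ, hmai⟩ := mai U hU p E hp hE1 hpE K hE Log hLog L hL e₀ (e i) (e k) (A i)
    (A k) (g i) (g k) (hCd i) (hCd k) he01 hiE hkE he₀ (rrr_lL hCd hGen.infty hik he₀ he01)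
    (hFo i k hei hek)
  -- kappa
  obtain ⟨κ, hκ⟩ : ∃ κ, κ = Log (A i 0) / (e i : K) - Log (A k 0) / (e k : K) := ⟨_, rfl⟩
  obtain ⟨N, hN⟩ : ∃ N : ℕ, κ = 0 ∨ (1 ≤ N ∧ ‖κ‖ = ((p : ℝ)⁻¹) ^ N) := by
    rcases (lgl p hp hp5 K hE Log hLog L hL).2 (A i 0) ((hCd i).An 0) (A k 0) ((hCd k).An 0)
      ((hCd i).A0 hei) ((hCd k).A0 hek) (e i) (e k) hei hek (by omega) (by omega) with h | ⟨N, h⟩
    · exact ⟨0, Or.inl (hκ.trans h)⟩
    · refine ⟨N, Or.inr ?_⟩
      rw [hκ]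
      exact h
  have hpi : (0 : ℝ) < (p : ℝ)⁻¹ := by
    have := hp.pos
    positivity
  have hpi1 : (p : ℝ)⁻¹ < 1 := inv_lt_one_of_one_lt₀ (by exact_mod_cast hp.one_lt)
  have hpK : (p : K) ≠ 0 := by
    have := hp.ne_zero
    exact_mod_cast this
  have hk : ∀ s : ℚ, e' = 0 → ‖((s : ℚ) : K) * δ - κ‖ = max ‖((s : ℚ) : K) * δ‖ ‖κ‖ := by
    intro s h0
    refine kps p hp K hE δ κ hδ ?_ s
    rcases hN with h | ⟨h1, h2⟩
    · exact Or.inl h
    · right
      refine ⟨N, κ / (p : K) ^ N, ?_, ?_, ?_⟩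
      · rw [norm_div, norm_pow, norm_p hp hE, h2]
        have h3 : ((p : ℝ)⁻¹) ^ N ≠ 0 := by positivity
        exact div_self h3
      · field_simp
      · intro z
        rw [hδ0 h0]
        refine (hGen.sq j l hjl (by omega) (by omega)).2 i k hei hek N (κ / (p : K) ^ N) ?_ ?_ z
        · rw [norm_div, norm_pow, norm_p hp hE, h2]
          have h3 : ((p : ℝ)⁻¹) ^ N ≠ 0 := by positivity
          exact div_self h3
        · rw [← hκ]
          field_simp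
  have hδn : δ ≠ 0 := by
    intro h
    rw [h, norm_zero] at hδ
    linarith
  -- the exponents
  have hMf := fun x y : ℕ => rrr_inf inf hp hp5 (K := K) hE (e₁ := e i) (e₀ := e₀) (e' := e')
    (m := m) (a := A i 0) (g := g j) (δ := δ) (κ := κ) (H := H) (τ := τ) ((hCd i).A0 hei)
    (hCd j).g1 hδn hτ he01 (hH.imp id (fun h => ⟨h.1, h.2.1⟩)) hk x y
  choose Mf hMf1 hMf2 using hMf
  refine ⟨∑ x ∈ Finset.range (N + 3), ∑ y ∈ Finset.range (2 * E + 1),
    (2 * E + E * (N + 2)) * Mf x y, ?_⟩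
  intro t q ht hLi hLk hSj hSl hAt hDij hDkl
  have hAi := hAt i (by simp)
  have hAj := hAt j (by simp)
  have hAk := hAt k (by simp)
  have hAl := hAt l (by simp)
  have ht1 := rrr_lt1 hp hLi
  have hLa : La p e₀ t := by
    rw [he₀]; exact rrr_min hLi hLk
  have hSm : Sm p e' t := by
    rw [he']; exact rrr_max hSj hSl
  have ht0 : t ≠ 0 := norm_pos_iff.mp ht
  -- the lower end
  have hlow : ‖t ^ e₀ / (p : K)‖ < th p ^ 2 := by
    rcases le_total (e i) (e k) with h | h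
    · have := low U hU p E hp hE1 hpE K hE Log hLog L hL n e A g hCd heE hGen i j k l hik hjl hei h
        t q ht hLi hSj hSl hAt hDij hDkl
      rw [he₀, min_eq_left h]
      exact this
    · have := low U hU p E hp hE1 hpE K hE Log hLog L hL n e A g hCd heE hGen k l i j hik.symm
        hjl.symm hek h t q ht hLk hSl hSj
        (by
          intro u hu
          apply hAt
          simp only [Set.mem_insert_iff, Set.mem_singleton_iff] at hu ⊢
          tauto) hDkl hDij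
      rw [he₀, min_eq_right h]
      exact this
  -- the upper end
  have hupp : ‖(p : K) / t ^ e'‖ < th p ^ 2 := by
    rcases Nat.eq_zero_or_pos e' with h0 | h0
    · rw [h0, pow_zero, div_one, norm_p hp hE]
      obtain ⟨h1, h2, h3, -⟩ := num p E hp hE1 hpE
      have h4 : th p ^ 20 ≤ th p ^ 2 := pow_le_pow_of_le_one hth0.le hth1.le (by norm_num)
      linarith
    · rcases le_total (e l) (e j) with h | h
      · have := upp U hU p E hp hE1 hpE K hE Log hLog L hL n e A g hCd heE hFo hGen i j k l hik hjl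
          hei hek (by omega) h t q ht hLi hLk hSj hAt hDij hDkl
        rw [he', max_eq_left h]
        exact this
      · have := upp U hU p E hp hE1 hpE K hE Log hLog L hL n e A g hCd heE hFo hGen k l i j
          hik.symm hjl.symm hek hei (by omega) h t q ht hLk hLi hSl
          (by
            intro u hu
            apply hAt
            simp only [Set.mem_insert_iff, Set.mem_singleton_iff] at hu ⊢
            tauto) hDkl hDij
        rw [he', max_eq_right h]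
        exact this
  have hth2 : th p ^ 2 < 1 := by nlinarith
  -- the radial pairs
  obtain ⟨s, hs⟩ := rpx U hU p hp hp5 K hE Log hLog L hL (e i) (e j) (A i) (A j) (g i) (g j)
    (hCd i) (hCd j) hei t (q i) (q j) ht hLi hSj hAi hAj hDij
  obtain ⟨s', hs'⟩ := rpx U hU p hp hp5 K hE Log hLog L hL (e k) (e l) (A k) (A l) (g k) (g l)
    (hCd k) (hCd l) hek t (q k) (q l) ht hLk hSl hAk hAl hDkl
  have hss : s' = s := rrr_rat hp (hs'.tn.symm.trans hs.tn)
  subst hss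
  have hnt : ‖t ^ e₀ / (p : K)‖ = ‖t‖ ^ e₀ / (p : ℝ)⁻¹ := by
    rw [norm_div, norm_pow, norm_p hp hE]
  have hnp : ‖(p : K) / t ^ e'‖ = (p : ℝ)⁻¹ / ‖t‖ ^ e' := by
    rw [norm_div, norm_pow, norm_p hp hE]
  have hmu : rmu p e₀ e' ‖t‖ = max ‖t‖ (max ‖t ^ e₀ / (p : K)‖ ‖(p : K) / t ^ e'‖) := by
    unfold rmu
    rw [hnt, hnp]
  have hmu1 : rmu p e₀ e' ‖t‖ < 1 := by
    rw [hmu]
    exact max_lt ht1 (max_lt (hlow.trans hth2) (hupp.trans hth2))
  have hmu0 : 0 ≤ rmu p e₀ e' ‖t‖ := by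
    rw [hmu]
    exact le_max_of_le_left (norm_nonneg _)
  have hmt : ‖t‖ ≤ rmu p e₀ e' ‖t‖ := by
    rw [hmu]; exact le_max_left _ _
  have hma : ‖t ^ e₀ / (p : K)‖ ≤ rmu p e₀ e' ‖t‖ := by
    rw [hmu]; exact le_max_of_le_right (le_max_left _ _)
  have hmb : ‖(p : K) / t ^ e'‖ ≤ rmu p e₀ e' ‖t‖ := by
    rw [hmu]; exact le_max_of_le_right (le_max_right _ _)
  have hpp : (p : ℝ)⁻¹ ≤ ‖(p : K) / t ^ e'‖ := by
    rw [hnp, le_div_iff₀ (pow_pos ht _)]
    have : ‖t‖ ^ e' ≤ 1 := pow_le_one₀ ht.le ht1.le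
    nlinarith
  obtain ⟨hthj, hthl, hth⟩ := hδt t (q j) (q l) ht ht1 hSm hupp.le hAj hAl
  have hm1 := hmai t (q i) (q k) ht hLa hlow.le hAi hAk
  -- the relation
  have heiK : (e i : K) ≠ 0 := by
    have : e i ≠ 0 := by omega
    exact_mod_cast this
  have hekK : (e k : K) ≠ 0 := by
    have : e k ≠ 0 := by omega
    exact_mod_cast this
  have hrel : ((s' : ℚ) : K) * (δ / t ^ e') - κ - (H * t ^ m + τ * (t ^ e₀ / p)) =
      -(((s' : ℚ) : K) * (Log ((p : K) * (q j)⁻¹) - Log ((p : K) * (q l)⁻¹) - δ / t ^ e')) +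
      (Log (t ^ e i * (q i)⁻¹ / A i 0) / (e i : K) - Log (t ^ e k * (q k)⁻¹ / A k 0) / (e k : K) -
        (H * t ^ m + τ * (t ^ e₀ / p))) := by
    have h1 := hs.lg
    have h2 := hs'.lg
    have h3 : (Log (A i 0) + Log (t ^ e i * (q i)⁻¹ / A i 0)) / (e i : K) =
        Log t + ((s' : ℚ) : K) * Log ((p : K) * (q j)⁻¹) := by
      rw [div_eq_iff heiK]
      linear_combination -h1
    have h4 : (Log (A k 0) + Log (t ^ e k * (q k)⁻¹ / A k 0)) / (e k : K) =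
        Log t + ((s' : ℚ) : K) * Log ((p : K) * (q l)⁻¹) := by
      rw [div_eq_iff hekK]
      linear_combination -h2
    rw [add_div] at h3 h4
    rw [hκ]
    linear_combination h4 - h3
  have hin : ‖((s' : ℚ) : K) * (δ / t ^ e') - κ - (H * t ^ m + τ * (t ^ e₀ / p))‖ ≤
      rmu p e₀ e' ‖t‖ * max ‖((s' : ℚ) : K) * (δ / t ^ e')‖
        (max (‖H‖ * ‖t‖ ^ m) ‖t ^ e₀ / (p : K)‖) := by
    rw [hrel]
    refine add_le' ?_ ?_
    · rw [norm_neg, norm_mul, norm_mul]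
      have h1 : max ‖t‖ ‖(p : K) / t ^ e'‖ ≤ rmu p e₀ e' ‖t‖ := max_le hmt hmb
      calc ‖((s' : ℚ) : K)‖ * ‖Log ((p : K) * (q j)⁻¹) - Log ((p : K) * (q l)⁻¹) - δ / t ^ e'‖
          ≤ ‖((s' : ℚ) : K)‖ * (rmu p e₀ e' ‖t‖ * ‖δ / t ^ e'‖) := by
            apply mul_le_mul_of_nonneg_left _ (norm_nonneg _)
            exact hth.trans (mul_le_mul_of_nonneg_right h1 (norm_nonneg _))
        _ = rmu p e₀ e' ‖t‖ * (‖((s' : ℚ) : K)‖ * ‖δ / t ^ e'‖) := by ring
        _ ≤ _ := mul_le_mul_of_nonneg_left (le_max_left _ _) hmu0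
    · refine hm1.trans ?_
      have h1 : max (max ‖t‖ ‖t ^ e₀ / (p : K)‖) ((p : ℝ)⁻¹) ≤ rmu p e₀ e' ‖t‖ :=
        max_le (max_le hmt hma) (hpp.trans hmb)
      exact mul_le_mul h1 (le_max_right _ _) (le_max_of_le_right (norm_nonneg _)) hmu0
  -- the radius
  obtain ⟨x, y, hx, hy1, hy2, hxy⟩ := ina p E hp hE1 hpE K hE s' e₀ e' m N t κ δ H τ
    (rmu p e₀ e' ‖t‖) hs.s0 hs.tn he01 he0E hee hLa hSm hδ hτ hH hN hmu1 (hk s') hin
  obtain ⟨ζ, hζ, hζ2⟩ := hs.rt y x hy1 (by rw [← hxy]; ring)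
  -- F and nu
  have hqi0 : q i ≠ 0 := norm_pos_iff.mp hAi.q0
  have hqj0 : q j ≠ 0 := norm_pos_iff.mp hAj.q0
  have hAi0 : A i 0 ≠ 0 := by
    intro h
    have := (hCd i).A0 hei
    rw [h, norm_zero] at this
    norm_num at this
  have hF : ‖t ^ e i * (q i)⁻¹ / A i 0 - 1‖ ≤ rmu p e₀ e' ‖t‖ := by
    obtain ⟨-, -, h3, -⟩ := rnl U hU p hp hp5 K hE L e₀ (e i) (A i) (g i) (hCd i) he01 (by omega)
      t (q i) ht hLa hAi
    have h4 : t ^ e i * (q i)⁻¹ / A i 0 - 1 =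
        (t ^ e i * (q i)⁻¹ / A i 0 - (1 + lL e₀ (e i) (A i) (g i) * (t ^ e₀ / p))) +
          lL e₀ (e i) (A i) (g i) * (t ^ e₀ / p) := by ring
    rw [h4]
    refine add_le' (h3.trans hmt) ?_
    rw [norm_mul]
    have h5 := rrr_lLn (d := e₀) (hCd i) hei
    have h6 := norm_nonneg (t ^ e₀ / (p : K))
    nlinarith
  have hnu : ‖(p : K) * (q j)⁻¹ - g j‖ ≤ rmu p e₀ e' ‖t‖ := by
    obtain ⟨-, h3, -⟩ := rsm U hU p hp hp5 K hE L (e j) (A j) (g j) (hCd j) t (q j) ht ht1 hSj hAj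
    have h5 : ‖(p : K) / t ^ (e j)‖ ≤ ‖(p : K) / t ^ e'‖ := by
      rw [hnp, norm_div, norm_pow, norm_p hp hE]
      apply div_le_div_of_nonneg_left hpi.le (pow_pos ht _)
      exact pow_le_pow_of_le_one ht.le ht1.le (by omega)
    have h6 := norm_nonneg ((p : K) / t ^ (e j))
    have h4 : (p : K) * (q j)⁻¹ - g j =
        ((p : K) * (q j)⁻¹ - (g j + A j 0 * (p / t ^ (e j)))) + A j 0 * (p / t ^ (e j)) := by ring
    rw [h4]
    refine add_le' (h3.trans (max_le (hpp.trans hmb) ?_)) ?_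
    · have : ‖(p : K) / t ^ (e j)‖ * ‖t‖ ≤ ‖(p : K) / t ^ (e j)‖ := by nlinarith
      exact this.trans (h5.trans hmb)
    · rw [norm_mul]
      have h7 := (hCd j).An1 0
      have : ‖A j 0‖ * ‖(p : K) / t ^ (e j)‖ ≤ ‖(p : K) / t ^ (e j)‖ := by nlinarith
      exact this.trans (h5.trans hmb)
  have hζ1 := hMf2 x y s' t (t ^ e i * (q i)⁻¹ / A i 0) ((p : K) * (q j)⁻¹) ζ hs.s0 hy1
    (by rw [← hxy]; ring) hs.tn hmu1 hF hnu hin hζ hζ2
  have e1 : t ^ e i / (A i 0 * (t ^ e i * (q i)⁻¹ / A i 0)) = q i := by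
    have : t ^ e i ≠ 0 := pow_ne_zero _ ht0
    field_simp
  have e2 : (p : K) / ((p : K) * (q j)⁻¹) = q j := by
    field_simp
  rw [e1, e2] at hζ2
  have hM1 := hMf1 x y
  have hx1 : 1 ≤ x := by
    by_contra h
    have h0 : x = 0 := by omega
    rw [h0] at hxy
    have h1 := hs.s0
    have h2 : (0 : ℚ) < y := by exact_mod_cast hy1
    have h3 : 0 < (y : ℚ) * s' := by positivity
    rw [hxy] at h3
    simp at h3
  have hbd : (2 * E + E * (N + 2)) * Mf x y ≤ ∑ x ∈ Finset.range (N + 3),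
      ∑ y ∈ Finset.range (2 * E + 1), (2 * E + E * (N + 2)) * Mf x y := by
    refine le_trans ?_ (Finset.single_le_sum (f := fun x => ∑ y ∈ Finset.range (2 * E + 1),
      (2 * E + E * (N + 2)) * Mf x y) (fun _ _ => Nat.zero_le _)
      (Finset.mem_range.mpr (by omega : x < N + 3)))
    exact Finset.single_le_sum (f := fun y => (2 * E + E * (N + 2)) * Mf x y)
      (fun _ _ => Nat.zero_le _) (Finset.mem_range.mpr (by omega : y < 2 * E + 1))
  refine ⟨y * Mf x y, e i * x * Mf x y, ?_, ?_, ?_, ?_, ?_⟩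
  · exact Nat.succ_le_of_lt (Nat.mul_pos hy1 hM1)
  · refine le_trans ?_ hbd
    apply Nat.mul_le_mul_right
    omega
  · exact Nat.succ_le_of_lt (Nat.mul_pos (Nat.mul_pos hei hx1) hM1)
  · refine le_trans ?_ hbd
    apply Nat.mul_le_mul_right
    have : e i * x ≤ E * (N + 2) := Nat.mul_le_mul hiE hx
    omega
  · rw [pow_mul, hζ2, mul_pow, hζ1, one_mul, ← pow_mul]

end

end Pool.Agent.ZPK.H26
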